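import Pool.Agent.Lib.MP_c12170_pr.All

/-!
# MP_c12170_pr, Q1: full positive answer

The upper stationary contact process on `ℤ^{d+1}` (any `d : ℕ`, so any dimension `≥ 1`) with
infection rate above the critical value, observed at the integer times along an independent simple
random walk, stochastically dominates a non-trivial Bernoulli sequence.  The density `ρ` can be
chosen such that it works for every random path which is independent of the contact process (in
particular for every deterministic path).
-/

open MeasureTheory ProbabilityTheory
open scoped ENNReal NNReal

open Pool.Agent.Lib.MP_c12170_pr

theorem Pool.Agent.Results.MP_c12170_pr.RandomWalkBernoulli.result :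
    ∀ (d : ℕ) (lam : ℝ≥0), lamc d < lam → ∃ ρ : unitInterval, 0 < ρ ∧
      Dominates (((P lam).prod (srw d)).map Zseq) ρ ∧
      ∀ ν : Measure (ℕ → Site d), IsProbabilityMeasure ν →
        Dominates (((P lam).prod ν).map Zseq) ρ :=
  All.main
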